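import Pool.Agent.R390.SF.Main

/-!
# Change of the lattice of an integral system at one prime number, and residual irreducibility
-/

set_option autoImplicit false

namespace Pool.Agent.N180.SR

open Module Matrix Polynomial NumberField Pool.Agent.Y800 Pool.Agent.R390.SF
open Pool.Agent.R390.SF.IntegralSystem

section lat

variable {ℓ : ℕ} [hℓ : Fact ℓ.Prime] {n : ℕ} {G : Type*} [Group G]

/-- The lattice of the vectors which are in `U` modulo `ℓ`. -/
def preim (U : Submodule (ZMod ℓ) (Fin n → ZMod ℓ)) : Submodule ℤ_[ℓ] (Fin n → ℤ_[ℓ]) where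
  carrier := {x | (fun i => PadicInt.toZMod (x i)) ∈ U}
  add_mem' {x y} hx hy := by
    have h := U.add_mem hx hy
    refine (congrArg (· ∈ U) ?_).mpr h
    funext i
    simp
  zero_mem' := by
    have h := U.zero_mem
    refine (congrArg (· ∈ U) ?_).mpr h
    funext i
    simp
  smul_mem' c x hx := by
    have h := U.smul_mem (PadicInt.toZMod c) hx
    refine (congrArg (· ∈ U) ?_).mpr h
    funext i
    simp

lemma mem_preim {U : Submodule (ZMod ℓ) (Fin n → ZMod ℓ)} {x : Fin n → ℤ_[ℓ]} :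
    x ∈ preim U ↔ (fun i => PadicInt.toZMod (x i)) ∈ U := Iff.rfl

lemma isUnit_of_toZMod {x : ℤ_[ℓ]} (h : PadicInt.toZMod x ≠ 0) : IsUnit x := by
  by_contra hx
  apply h
  have h2 : x ∈ RingHom.ker (PadicInt.toZMod (p := ℓ)) := by
    rw [PadicInt.ker_toZMod]
    exact (IsLocalRing.mem_maximalIdeal x).2 hx
  exact h2

lemma exists_lift (u : Fin n → ZMod ℓ) :
    ∃ x : Fin n → ℤ_[ℓ], (fun i => PadicInt.toZMod (x i)) = u := by
  choose x hx using fun i => ZMod.ringHom_surjective (PadicInt.toZMod (p := ℓ)) (u i)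
  exact ⟨x, funext hx⟩

lemma finrank_preim (U : Submodule (ZMod ℓ) (Fin n → ZMod ℓ)) :
    finrank ℤ_[ℓ] (preim U) = n := by
  have h1 : finrank ℤ_[ℓ] (preim U) ≤ finrank ℤ_[ℓ] (Fin n → ℤ_[ℓ]) :=
    LinearMap.finrank_le_finrank_of_injective (f := (preim U).subtype) (preim U).subtype_injective
  have hm : ∀ x : Fin n → ℤ_[ℓ], (ℓ : ℤ_[ℓ]) • x ∈ preim U := by
    intro x
    rw [mem_preim]
    have h : (fun i => PadicInt.toZMod (((ℓ : ℤ_[ℓ]) • x) i)) = 0 := by
      funext i
      simp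
    rw [h]
    exact U.zero_mem
  let φ : (Fin n → ℤ_[ℓ]) →ₗ[ℤ_[ℓ]] preim U :=
    { toFun := fun x => ⟨(ℓ : ℤ_[ℓ]) • x, hm x⟩
      map_add' := fun x y => Subtype.ext (smul_add _ _ _)
      map_smul' := fun c x => Subtype.ext (smul_comm _ _ _) }
  have hφ : Function.Injective φ := by
    intro x y hxy
    have h2 : (ℓ : ℤ_[ℓ]) • x = (ℓ : ℤ_[ℓ]) • y := congrArg Subtype.val hxy
    exact smul_right_injective _ (by exact_mod_cast hℓ.out.ne_zero : (ℓ : ℤ_[ℓ]) ≠ 0) h2
  have h2 := LinearMap.finrank_le_finrank_of_injective hφ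
  rw [finrank_fin_fun] at h1 h2
  exact le_antisymm h1 h2

/-- The sublattice given by a nontrivial stable subspace of the reduction. -/
theorem exists_change {ρ : G →* GL (Fin n) ℤ_[ℓ]} {U : Submodule (ZMod ℓ) (Fin n → ZMod ℓ)}
    (hU : IsStable ((Matrix.GeneralLinearGroup.map (PadicInt.toZMod (p := ℓ))).comp ρ) U)
    (h0 : U ≠ ⊥) (h1 : U ≠ ⊤) :
    ∃ (B : Matrix (Fin n) (Fin n) ℤ_[ℓ]) (ρ' : G →* GL (Fin n) ℤ_[ℓ]),
      (∀ g, (ρ g : Matrix (Fin n) (Fin n) ℤ_[ℓ]) * B = B * (ρ' g : Matrix (Fin n) (Fin n) ℤ_[ℓ])) ∧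
      B.det ≠ 0 ∧ ¬ IsUnit B.det ∧ ∃ i j, IsUnit (B i j) := by
  classical
  let b : Basis (Fin n) ℤ_[ℓ] (preim U) := finBasisOfFinrankEq _ _ (finrank_preim U)
  let B : Matrix (Fin n) (Fin n) ℤ_[ℓ] := Matrix.of fun i j => ((b j : preim U) : Fin n → ℤ_[ℓ]) i
  have hB : ∀ y : Fin n → ℤ_[ℓ], B.mulVec y = ((∑ j, y j • b j : preim U) : Fin n → ℤ_[ℓ]) := by
    intro y
    funext i
    simp only [B, Matrix.mulVec, dotProduct, Matrix.of_apply, Submodule.coe_sum,
      Submodule.coe_smul, Finset.sum_apply, Pi.smul_apply, smul_eq_mul]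
    exact Finset.sum_congr rfl fun j _ => mul_comm _ _
  have hmem : ∀ y, B.mulVec y ∈ preim U := fun y => by
    rw [hB]
    exact Subtype.property _
  have hex : ∀ x ∈ preim U, ∃ y, B.mulVec y = x := by
    intro x hx
    refine ⟨fun j => b.repr ⟨x, hx⟩ j, ?_⟩
    rw [hB, b.sum_repr]
  have hinj : ∀ y, B.mulVec y = 0 → y = 0 := by
    intro y hy
    rw [hB] at hy
    have h2 : (∑ j, y j • b j : preim U) = 0 := Subtype.ext hy
    have h3 := Fintype.linearIndependent_iff.1 b.linearIndependent y h2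
    exact funext h3
  have hdet : B.det ≠ 0 := by
    intro h
    obtain ⟨v, hv, hv0⟩ := Matrix.exists_mulVec_eq_zero_iff.2 h
    exact hv (hinj v hv0)
  have hst : ∀ g : G, ∀ x ∈ preim U, (ρ g : Matrix (Fin n) (Fin n) ℤ_[ℓ]).mulVec x ∈ preim U := by
    intro g x hx
    rw [mem_preim] at hx ⊢
    have h2 := hU g _ hx
    refine (congrArg (· ∈ U) ?_).mpr h2
    funext i
    simp only [Matrix.mulVec, dotProduct, map_sum, map_mul, MonoidHom.comp_apply,
      Matrix.GeneralLinearGroup.map_apply]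
  have hcan : ∀ M N : Matrix (Fin n) (Fin n) ℤ_[ℓ], B * M = B * N → M = N := by
    intro M N h
    ext i j
    have h2 : B.mulVec (fun k => M k j - N k j) = 0 := by
      funext k
      have h3 := congrFun (congrFun h k) j
      simp only [Matrix.mul_apply] at h3
      simp only [Matrix.mulVec, dotProduct, mul_sub, Finset.sum_sub_distrib, h3, sub_self,
        Pi.zero_apply]
    exact sub_eq_zero.1 (congrFun (hinj _ h2) i)
  have hM : ∀ g : G, ∃ M : Matrix (Fin n) (Fin n) ℤ_[ℓ],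
      (ρ g : Matrix (Fin n) (Fin n) ℤ_[ℓ]) * B = B * M := by
    intro g
    choose y hy using fun j => hex _ (hst g _ (hmem (Pi.single j 1)))
    refine ⟨Matrix.of fun i j => y j i, ?_⟩
    ext i j
    have h3 := congrFun (hy j) i
    rw [Matrix.mulVec_mulVec, Matrix.mulVec_single_one] at h3
    simp only [Matrix.mul_apply, Matrix.of_apply]
    simp only [Matrix.mulVec, dotProduct, Matrix.col_apply, Matrix.mul_apply] at h3
    exact h3.symm
  choose M hM using hM
  have hM1 : M 1 = 1 := hcan _ _ (by rw [← hM, map_one, Units.val_one, one_mul, mul_one])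
  have hMm : ∀ g h, M (g * h) = M g * M h := by
    intro g h
    refine hcan _ _ ?_
    rw [← hM, map_mul, Units.val_mul, mul_assoc, hM h, ← mul_assoc, hM g, mul_assoc]
  let φ : G →* Matrix (Fin n) (Fin n) ℤ_[ℓ] := ⟨⟨M, hM1⟩, hMm⟩
  refine ⟨B, φ.toHomUnits, fun g => hM g, hdet, ?_, ?_⟩
  · intro hu
    apply h1
    rw [eq_top_iff]
    intro u _
    obtain ⟨x, hx⟩ := exists_lift u
    have h2 : B.mulVec (B⁻¹.mulVec x) = x := by
      rw [Matrix.mulVec_mulVec, Matrix.mul_nonsing_inv _ hu, Matrix.one_mulVec]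
    have h3 := hmem (B⁻¹.mulVec x)
    rw [h2, mem_preim, hx] at h3
    exact h3
  · by_contra hne
    push Not at hne
    apply h0
    rw [eq_bot_iff]
    intro u hu
    obtain ⟨x, hx⟩ := exists_lift u
    have hxm : x ∈ preim U := by
      rw [mem_preim, hx]
      exact hu
    obtain ⟨y, rfl⟩ := hex x hxm
    rw [Submodule.mem_bot, ← hx]
    funext i
    simp only [Matrix.mulVec, dotProduct, map_sum, map_mul, Pi.zero_apply]
    refine Finset.sum_eq_zero fun j _ => ?_
    have h2 : PadicInt.toZMod (B i j) = 0 := by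
      by_contra h3
      exact hne i j (isUnit_of_toZMod h3)
    rw [h2, zero_mul]

/-- A primitive matrix which is a multiple of the inverse of an invertible matrix is invertible. -/
theorem isUnit_of_scalar {B C : Matrix (Fin n) (Fin n) ℤ_[ℓ]} {c : ℚ_[ℓ]} (hC : IsUnit C.det)
    (h : (B * C).map (algebraMap ℤ_[ℓ] ℚ_[ℓ]) = c • 1) (hB : ∃ i j, IsUnit (B i j)) :
    IsUnit B.det := by
  obtain ⟨i, j, hij⟩ := hB
  have h1 : algebraMap ℤ_[ℓ] ℚ_[ℓ] ((B * C) i i) = c := by
    have h2 := congrFun (congrFun h i) i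
    simpa using h2
  have h2 : B * C = ((B * C) i i) • 1 := by
    have hinj : Function.Injective (algebraMap ℤ_[ℓ] ℚ_[ℓ]) := FaithfulSMul.algebraMap_injective _ _
    ext a b
    apply hinj
    have h3 := congrFun (congrFun h a) b
    rw [Matrix.map_apply] at h3
    rw [h3, ← h1]
    by_cases hab : a = b
    · subst hab
      simp
    · simp [hab]
  have h3 : B = ((B * C) i i) • C⁻¹ := by
    have h4 : B = (B * C) * C⁻¹ := by
      rw [mul_assoc, Matrix.mul_nonsing_inv _ hC, mul_one]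
    conv_lhs => rw [h4, h2]
    rw [Matrix.smul_mul, one_mul]
  have h5 : IsUnit ((B * C) i i) := by
    have h6 := congrFun (congrFun h3 i) j
    rw [Matrix.smul_apply, smul_eq_mul] at h6
    rw [h6] at hij
    exact isUnit_of_mul_isUnit_left hij
  have h7 : IsUnit (B * C).det := by
    rw [h2, Matrix.det_smul, Matrix.det_one, mul_one]
    exact h5.pow _
  rw [Matrix.det_mul] at h7
  exact isUnit_of_mul_isUnit_left h7

end lat

end Pool.Agent.N180.SR
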