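import Pool.Agent.R390.SF.Main
import Pool.Agent.R390.SF.BN2

/-!
# Change of the lattice at one prime number: definitions
-/

set_option autoImplicit false

namespace Pool.Agent.N180.SR

open Pool.Agent.R390.SF Pool.Agent.R390.SF.IntegralSystem

variable {F : SubFld ℚ} {n : ℕ}

/-- `T'` is obtained from `T` by a change of the lattice at the prime number `p`: the polynomials and
the representations on `T_ℓ`, `ℓ ≠ p`, are the same, and `T'_p` is (in the coordinates of some basis) a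
lattice in `V_p` which is stable under the Galois group. -/
structure LatticeChange (p : ℕ) (T T' : IntegralSystem F n) : Prop where
  poly : T'.poly = T.poly
  away : ∀ (ℓ : ℕ) [Fact ℓ.Prime], ℓ ≠ p → T'.rho ℓ = T.rho ℓ
  rat : ∀ [Fact p.Prime], ∃ A : GL (Fin n) ℚ_[p], ∀ g : F.fixingSubgroup,
    T'.rat p g = A⁻¹ * T.rat p g * A

/-- Up to isomorphism at all the primes in `Λ` there are only finitely many systems in the class. -/
def FiniteOn (Λ : Set ℕ) (Cl : IntegralSystem F n → Prop) : Prop :=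
  ∃ (m : ℕ) (T : Fin m → IntegralSystem F n), (∀ i, Cl (T i)) ∧
    ∀ T' : IntegralSystem F n, Cl T' → ∃ i, IsomorphicOn Λ (T i) T'

/-- All the Galois stable lattices in `V_ℓ` are isomorphic to `T_ℓ`, as Galois modules. -/
def OneLattice (ℓ : ℕ) [Fact ℓ.Prime] (T : IntegralSystem F n) : Prop :=
  ∀ T' : IntegralSystem F n, LatticeChange ℓ T T' →
    ∃ A : GL (Fin n) ℤ_[ℓ], ∀ g : F.fixingSubgroup, T'.rho ℓ g = A * T.rho ℓ g * A⁻¹

/-- The representation on `V_ℓ` is absolutely irreducible: no stable subspaces, and only the scalar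
matrices commute with the Galois group. -/
structure AbsIrreducibleAt (ℓ : ℕ) [Fact ℓ.Prime] (T : IntegralSystem F n) : Prop where
  irreducible : ∀ U : Submodule ℚ_[ℓ] (Fin n → ℚ_[ℓ]), IsStable (T.rat ℓ) U → U = ⊥ ∨ U = ⊤
  scalar : ∀ C : Matrix (Fin n) (Fin n) ℚ_[ℓ],
    (∀ g, (T.rat ℓ g : Matrix (Fin n) (Fin n) ℚ_[ℓ]) * C =
      C * (T.rat ℓ g : Matrix (Fin n) (Fin n) ℚ_[ℓ])) → ∃ c : ℚ_[ℓ], C = c • 1

/-- The representation on `T_ℓ / ℓ` is irreducible. -/
def ResIrreducibleAt (ℓ : ℕ) [Fact ℓ.Prime] (T : IntegralSystem F n) : Prop :=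
  ∀ U : Submodule (ZMod ℓ) (Fin n → ZMod ℓ), IsStable (T.res ℓ) U → U = ⊥ ∨ U = ⊤

/-- For all but finitely many primes in `Λ`. -/
def ForAlmostAll (Λ : Set ℕ) (Q : ∀ (ℓ : ℕ) [Fact ℓ.Prime], Prop) : Prop :=
  ∃ N : ℕ, ∀ (ℓ : ℕ) [Fact ℓ.Prime], ℓ ∈ Λ → N < ℓ → Q ℓ

end Pool.Agent.N180.SR
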