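import Pool.Agent.N180.SR.Core
import Pool.Agent.N180.SR.Defs
import Pool.Agent.R390.SF.PolMain

/-!
# Finiteness and the number of the stable lattices at almost all primes
-/

set_option autoImplicit false

namespace Pool.Agent.N180.SR

open Module Matrix Polynomial NumberField Pool.Agent.Y800 Pool.Agent.R390.SF
open Pool.Agent.R390.SF.IntegralSystem
open Pool.Agent.Y126.SH (exists_reps)

variable {F : SubFld ℚ} {n : ℕ}

/-- The system with the representation at `p` replaced by `ρ`. -/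
noncomputable def changeAt (T : IntegralSystem F n) (p : ℕ) [hp : Fact p.Prime]
    (ρ : F.fixingSubgroup →* GL (Fin n) ℤ_[p]) : IntegralSystem F n where
  rho := fun ℓ _ => if h : ℓ = p then by subst h; exact ρ else T.rho ℓ
  poly := T.poly

lemma changeAt_self (T : IntegralSystem F n) (p : ℕ) [hp : Fact p.Prime]
    (ρ : F.fixingSubgroup →* GL (Fin n) ℤ_[p]) : (changeAt T p ρ).rho p = ρ := by
  unfold changeAt
  simp

lemma changeAt_ne (T : IntegralSystem F n) (p : ℕ) [hp : Fact p.Prime]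
    (ρ : F.fixingSubgroup →* GL (Fin n) ℤ_[p]) (ℓ : ℕ) [hℓ : Fact ℓ.Prime] (h : ℓ ≠ p) :
    (changeAt T p ρ).rho ℓ = T.rho ℓ := by
  unfold changeAt
  simp [h]

lemma latticeChange_changeAt (T : IntegralSystem F n) {p : ℕ} [hp : Fact p.Prime]
    {ρ : F.fixingSubgroup →* GL (Fin n) ℤ_[p]} {B : Matrix (Fin n) (Fin n) ℤ_[p]}
    (hB : B.det ≠ 0)
    (h : ∀ g, (T.rho p g : Matrix (Fin n) (Fin n) ℤ_[p]) * B =
      B * (ρ g : Matrix (Fin n) (Fin n) ℤ_[p])) :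
    LatticeChange p T (changeAt T p ρ) where
  poly := rfl
  away := fun ℓ _ hne => changeAt_ne T p ρ ℓ hne
  rat := by
    intro _
    have hdet : IsUnit (qm B).det := by
      rw [qm_det]
      exact isUnit_iff_ne_zero.2 fun h0 => hB
        ((FaithfulSMul.algebraMap_injective ℤ_[p] ℚ_[p]) (by rw [h0, map_zero]))
    let A : GL (Fin n) ℚ_[p] := Matrix.GeneralLinearGroup.mk'' (qm B) hdet
    refine ⟨A, fun g => ?_⟩
    have h1 : A * (changeAt T p ρ).rat p g = T.rat p g * A := by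
      apply Units.ext
      have h2 := congrArg qm (h g)
      rw [map_mul, map_mul] at h2
      rw [Units.val_mul, Units.val_mul]
      have h3 : ((changeAt T p ρ).rat p g : Matrix (Fin n) (Fin n) ℚ_[p]) =
          qm (ρ g : Matrix (Fin n) (Fin n) ℤ_[p]) := by
        unfold IntegralSystem.rat
        rw [changeAt_self]
        rfl
      rw [h3]
      exact h2.symm
    rw [mul_assoc, ← h1, inv_mul_cancel_left]

lemma iso_of_iso {Λ : Set ℕ} {T T1 T2 : IntegralSystem F n} (h1 : IsomorphicOn Λ T T1)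
    (h2 : IsomorphicOn Λ T T2) : IsomorphicOn Λ T1 T2 := by
  intro ℓ _ hℓ
  obtain ⟨A, hA⟩ := h1 ℓ hℓ
  obtain ⟨A', hA'⟩ := h2 ℓ hℓ
  refine ⟨A' * A⁻¹, fun g => ?_⟩
  rw [hA, hA']
  group

lemma finiteOn_mono {Λ : Set ℕ} {Cl Cl' : IntegralSystem F n → Prop} (h : FiniteOn Λ Cl)
    (hle : ∀ T, Cl' T → Cl T) : FiniteOn Λ Cl' := by
  classical
  obtain ⟨m, t, -, hrep⟩ := h
  let I := {i : Fin m // ∃ T', Cl' T' ∧ IsomorphicOn Λ (t i) T'}
  let e : I ≃ Fin (Fintype.card I) := Fintype.equivFin I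
  choose r hr hr' using fun i : I => i.2
  refine ⟨Fintype.card I, fun j => r (e.symm j), fun j => hr _, ?_⟩
  intro T' hT'
  obtain ⟨i, hi⟩ := hrep T' (hle T' hT')
  refine ⟨e ⟨i, T', hT', hi⟩, ?_⟩
  dsimp only
  rw [e.symm_apply_apply]
  exact iso_of_iso (hr' ⟨i, T', hT', hi⟩) hi

/-- If the isogeny class is finite then the lattice is unique at almost all primes. -/
theorem one_of_finite {Λ : Set ℕ} {Cl : IntegralSystem F n → Prop} {T : IntegralSystem F n}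
    (hT : Cl T) (hcl : ∀ (T T' : IntegralSystem F n) (p : ℕ), Cl T → p ∈ Λ →
      LatticeChange p T T' → Cl T')
    (hfin : FiniteOn Λ (fun T' => Cl T' ∧ T'.poly = T.poly)) :
    ForAlmostAll Λ (fun ℓ _ => OneLattice ℓ T) := by
  classical
  obtain ⟨m, t, -, hrep⟩ := hfin
  by_contra hcon
  let Bad : Set ℕ := {ℓ | ∃ h : Fact ℓ.Prime, ℓ ∈ Λ ∧ ¬ OneLattice ℓ T}
  have hinf : Bad.Infinite := by
    intro hfinB
    apply hcon
    obtain ⟨N, hN⟩ := hfinB.bddAbove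
    refine ⟨N, fun ℓ hℓ hΛ hlt => ?_⟩
    by_contra h1
    exact absurd (hN ⟨hℓ, hΛ, h1⟩) (not_le.2 hlt)
  have hex : ∀ ℓ : Bad, ∃ (T' : IntegralSystem F n) (i : Fin m), LatticeChange (ℓ : ℕ) T T' ∧
      IsomorphicOn Λ (t i) T' ∧ ∀ (h : Fact (ℓ : ℕ).Prime), ¬ ∃ A : GL (Fin n) ℤ_[(ℓ : ℕ)],
        ∀ g : F.fixingSubgroup, T'.rho ℓ g = A * T.rho ℓ g * A⁻¹ := by
    rintro ⟨ℓ, hℓ, hΛ, h1⟩
    unfold OneLattice at h1
    push Not at h1
    obtain ⟨T', h2, h3⟩ := h1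
    obtain ⟨i, hi⟩ := hrep T' ⟨hcl T T' ℓ hT hΛ h2, h2.poly⟩
    refine ⟨T', i, h2, hi, fun h => ?_⟩
    rintro ⟨A, hA⟩
    obtain ⟨g, hg⟩ := h3 A
    exact hg (hA g)
  choose T' i hch hiso hno using hex
  have hinf' : Infinite Bad := hinf.to_subtype
  obtain ⟨a, b, hab, hi⟩ := Finite.exists_ne_map_eq_of_infinite i
  obtain ⟨hp, hΛ, -⟩ := a.2
  have h1 := iso_of_iso (hi ▸ hiso b) (hiso a)
  obtain ⟨A, hA⟩ := h1 a hΛ
  refine hno a hp ⟨A, fun g => ?_⟩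
  rw [hA g, (hch b).away a (fun h => hab (Subtype.ext h))]

/-- If the lattice is unique at almost all primes then the class is finite. -/
theorem finite_of_one [hF : FiniteDimensional ℚ F] (hn : 0 < n) {w : ℕ} {S : Finset ℕ} {Λ : Set ℕ}
    {Cl : IntegralSystem F n → Prop} (hG : ∀ T, Cl T → T.GoodSystem S w)
    (hss : ∀ T, Cl T → ∀ (ℓ : ℕ) [Fact ℓ.Prime], ℓ ∈ Λ → Semis (T.rat ℓ))
    (hone : ∀ T, Cl T → ForAlmostAll Λ (fun ℓ _ => OneLattice ℓ T)) : FiniteOn Λ Cl := by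
  classical
  obtain ⟨𝒯, h𝒯, hdet⟩ := traces_of_finite (F := F) hn S
  refine exists_reps (fun T : IntegralSystem F n => Cl T)
    (fun T T' => IsomorphicOn Λ T T') (fun T => fun p : 𝒯 => (T.poly p).coeff (n - 1)) ?_ ?_
  · refine (Set.Finite.pi' (t := fun p : 𝒯 => Set.Icc
      (-((Nat.card (𝓞 F ⧸ (p : Ideal (𝓞 F))) ^ w) ^ n * n.choose (n / 2) : ℕ) : ℤ)
      (((Nat.card (𝓞 F ⧸ (p : Ideal (𝓞 F))) ^ w) ^ n * n.choose (n / 2) : ℕ) : ℤ))
      (fun p => Set.finite_Icc _ _)).subset ?_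
    rintro _ ⟨T, hT, rfl⟩ p
    obtain ⟨h1, r, hr, hrS, h2⟩ := h𝒯 p p.2
    exact abs_le.1 (coeff_bound (hG T hT) hr hrS h1 h2 (n - 1))
  · intro T0 hT0
    obtain ⟨N, hN⟩ := hone T0 hT0
    choose k c hk hc using local_code2 (Λ := Λ) (T0 := T0) (fun ℓ hℓ hℓΛ => hss T0 hT0 ℓ hℓΛ)
    obtain ⟨K, ⟨e⟩⟩ := Finite.exists_equiv_fin (∀ ℓ : Fin (N + 1), Fin (k ℓ))
    refine ⟨K, fun T => (e fun ℓ => ⟨c ℓ T, hk ℓ T⟩ : ℕ), fun T => Fin.is_lt _, ?_⟩
    intro T T' hT hT' hi hi' hcode ℓ hℓ hℓΛ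
    have key : ∀ T : IntegralSystem F n, Cl T →
        ((fun p : 𝒯 => (T.poly p).coeff (n - 1)) = fun p : 𝒯 => (T0.poly p).coeff (n - 1)) →
        ∃ B : Matrix (Fin n) (Fin n) ℤ_[ℓ], Inter T0 T ℓ B := by
      intro T hT hi
      refine exists_inter (hss T0 hT0 ℓ hℓΛ) (hss T hT ℓ hℓΛ) ?_
      exact hdet w w T T0 (hG T hT) (hG T0 hT0) (fun p hp => congrFun hi ⟨p, hp⟩) ℓ
    have h1 := key T hT hi
    have h2 := key T' hT' hi'
    by_cases hℓN : ℓ ≤ N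
    · have h3 := e.injective (Fin.ext hcode)
      have h4 := congrFun h3 ⟨ℓ, Nat.lt_succ_of_le hℓN⟩
      exact hc ℓ T T' hℓΛ h1 h2 (congrArg Fin.val h4)
    · obtain ⟨B, hB, hBρ⟩ := h1
      obtain ⟨B', hB', hBρ'⟩ := h2
      obtain ⟨A, hA⟩ := hN ℓ hℓΛ (not_le.1 hℓN) _ (latticeChange_changeAt T0 hB hBρ)
      obtain ⟨A', hA'⟩ := hN ℓ hℓΛ (not_le.1 hℓN) _ (latticeChange_changeAt T0 hB' hBρ')
      rw [changeAt_self] at hA hA'
      refine ⟨A' * A⁻¹, fun g => ?_⟩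
      rw [hA, hA']
      group

/-- In the absolutely irreducible case the lattice is unique if and only if the reduction is
irreducible. -/
theorem oneLattice_iff (hn : 0 < n) {ℓ : ℕ} [hℓ : Fact ℓ.Prime] {T : IntegralSystem F n}
    (hT : AbsIrreducibleAt ℓ T) : OneLattice ℓ T ↔ ResIrreducibleAt ℓ T := by
  constructor
  · intro h U hU
    by_contra hcon
    push Not at hcon
    obtain ⟨B, ρ', hB, hdet, hnu, hprim⟩ := exists_change (ρ := T.rho ℓ) hU hcon.1 hcon.2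
    obtain ⟨A, hA⟩ := h _ (latticeChange_changeAt T hdet hB)
    rw [changeAt_self] at hA
    apply hnu
    have hcomm : ∀ g, (T.rho ℓ g : Matrix (Fin n) (Fin n) ℤ_[ℓ]) *
        (B * (A : Matrix (Fin n) (Fin n) ℤ_[ℓ])) =
        (B * (A : Matrix (Fin n) (Fin n) ℤ_[ℓ])) * (T.rho ℓ g : Matrix (Fin n) (Fin n) ℤ_[ℓ]) := by
      intro g
      rw [← mul_assoc, hB g, hA g, Units.val_mul, Units.val_mul]
      simp only [mul_assoc, Units.inv_mul, mul_one]
    obtain ⟨c, hc⟩ := hT.scalar (qm (B * (A : Matrix (Fin n) (Fin n) ℤ_[ℓ]))) (fun g => by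
      have h2 := congrArg qm (hcomm g)
      rw [map_mul, map_mul (f := qm) (B * _)] at h2
      exact h2)
    exact isUnit_of_scalar (C := (A : Matrix (Fin n) (Fin n) ℤ_[ℓ]))
      ((Matrix.isUnit_iff_isUnit_det _).1 A.isUnit) hc hprim
  · intro h T' hT'
    obtain ⟨A, hA⟩ := hT'.rat
    obtain ⟨B, hB, hBρ⟩ := exists_primitive hn (ρ := T.rho ℓ) (ρ₁ := T'.rho ℓ) A (fun g => by
      have h1 : T.rat ℓ g * A = A * T'.rat ℓ g := by
        rw [hA g]
        group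
      exact congrArg Units.val h1)
    exact lat_res h hB hBρ

end Pool.Agent.N180.SR
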